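import Pool.Agent.Helper7.EC_E.GoalsR

/-! MP_ecc237_nt, Part E, packet RB. -/

set_option autoImplicit false

open MeasureTheory Filter Topology Set

namespace EC237.ZE.PkRB

theorem As0 (w : ℂ) (k : ℤ × ℤ) : As w (k, 0) = PowerSeries.C (KA w k)⁻¹ := by
  ext n
  simp only [As, gser, PowerSeries.coeff_mk, PowerSeries.coeff_C]
  rcases n with _ | n
  · simp
  · simp

theorem Bs0 (w : ℂ) (k : ℤ × ℤ) : Bs w (k, 0) = PowerSeries.C (KB w k)⁻¹ := by
  ext n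
  simp only [Bs, gser, PowerSeries.coeff_mk, PowerSeries.coeff_C]
  rcases n with _ | n
  · simp
  · simp

theorem AB0 (y : ℝ) (k : ℤ × ℤ) :
    (KA (y:ℂ) k)⁻¹ * (KB (y:ℂ) k)⁻¹ = 1 / (Nn y k : ℂ) := by
  rw [← mul_inv, one_div]
  congr 1
  simp only [KA, KB, Nn]
  push_cast
  linear_combination (-(k.2:ℂ) ^ 2 * (y:ℂ) ^ 2) * Complex.I_sq

theorem XX0 (w : ℂ) (k l : ℤ × ℤ) :
    XX w (k, 0) (l, 0) = PowerSeries.C (PowerSeries.coeff 0 (XX w (k, 0) (l, 0))) := by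
  have h : XX w (k, 0) (l, 0) =
      PowerSeries.C ((KA w k)⁻¹ * (KB w l)⁻¹ - (KB w k)⁻¹ * (KA w l)⁻¹) := by
    simp only [XX, As0, Bs0, map_sub, map_mul]
  rw [h]
  simp

theorem cq (y : ℝ) (a b c d : ℤ × ℤ) :
    cQ (y:ℂ) (a, 1) (b, -1) (c, 0) (d, 0) =
      -(2 / 3 * (y:ℂ) ^ 3) * (1 / (Nn y (a + b) : ℂ) *
        PowerSeries.coeff 2 (XX (y:ℂ) (a, 1) (b, -1)) *
        PowerSeries.coeff 0 (XX (y:ℂ) (c, 0) (d, 0))) := by
  have hs : (((a, 1) : SV) + ((b, -1) : SV)) = ((a + b, 0) : SV) := by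
    simp
  unfold cQ Qs
  rw [hs, As0, Bs0, XX0 (y:ℂ) c d, ← map_mul, AB0]
  generalize PowerSeries.coeff 0 (XX (y:ℂ) (c, 0) (d, 0)) = u
  simp only [PowerSeries.coeff_smul, PowerSeries.coeff_mul_C, smul_eq_mul, PowerSeries.coeff_C,
    if_true, PowerSeries.coeff_zero_C]
  ring

/-- `c` -/
noncomputable def cc (y : ℝ) (s : ℤ × ℤ) : ℂ := if InCl 0 s then 1 / (Nn y s : ℂ) else 0

/-- `F` -/
noncomputable def FF (y : ℝ) (s k : ℤ × ℤ) : ℂ := if InCl 1 k ∧ InCl 5 (s - k) then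
  PowerSeries.coeff 2 (XX (y:ℂ) (k, 1) (s - k, -1)) else 0

/-- `G` -/
noncomputable def GG (y : ℝ) (s k : ℤ × ℤ) : ℂ := if InCl 5 k ∧ InCl 1 (-s - k) then
  PowerSeries.coeff 0 (XX (y:ℂ) (k, 0) (-s - k, 0)) else 0

theorem term (y : ℝ) (p : Tri) : famB (cQ (y:ℂ)) p =
    -(2 / 3 * (y:ℂ) ^ 3) *
      (cc y (p.1 + p.2.1) * FF y (p.1 + p.2.1) p.1 * GG y (p.1 + p.2.1) p.2.2) := by
  obtain ⟨a, b, c⟩ := p
  have h1 : a + b - a = b := by abel
  have h2 : -(a + b) - c = k4 (a, b, c) := by simp only [k4]; abel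
  simp only [famB, ClT, cc, FF, GG, h1, h2]
  by_cases h : InCl 1 a ∧ InCl 5 b ∧ InCl 5 c
  · obtain ⟨ha, hb, hc⟩ := h
    have h3 : InCl 0 (a + b) := by
      simp only [InCl, Prod.fst_add, Prod.snd_add] at *
      omega
    have h4 : InCl 1 (k4 (a, b, c)) := by
      simp only [InCl, k4, Prod.fst_add, Prod.snd_add, Prod.fst_neg, Prod.snd_neg] at *
      omega
    simp only [ha, hb, hc, h3, h4, and_self, if_true]
    exact cq y a b c _
  · rw [if_neg h]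
    by_cases h5 : InCl 1 a ∧ InCl 5 b
    · have h6 : ¬ InCl 5 c := fun h6 => h ⟨h5.1, h5.2, h6⟩
      simp [h6]
    · simp [h5]

theorem bcl {r : ℤ} {k : ℤ × ℤ} (h : InCl r k) (hr : ¬ (r % 6 = 0)) : k ≠ 0 := by
  rintro rfl
  simp only [InCl, Prod.snd_zero, Prod.fst_zero] at h
  omega

theorem rk_nonneg (k : ℤ × ℤ) : 0 ≤ rk k := Real.sqrt_nonneg _

theorem rk_pos {k : ℤ × ℤ} (hk : k ≠ 0) : 0 < rk k := by
  unfold rk
  apply Real.sqrt_pos.2
  have : k.1 ≠ 0 ∨ k.2 ≠ 0 := by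
    by_contra h
    push Not at h
    exact hk (Prod.ext h.1 h.2)
  rcases this with h | h
  · have : (0:ℝ) < (k.1:ℝ) ^ 2 := by positivity
    positivity
  · have : (0:ℝ) < (k.2:ℝ) ^ 2 := by positivity
    positivity

theorem pw_nonneg (k : ℤ × ℤ) : 0 ≤ pw k := Real.rpow_nonneg (rk_nonneg k) _

theorem summ (h3 : B2) (h4 : B4) (y : ℝ) (hy : 0 < y) :
    Summable (fun p : Tri =>
      cc y (p.1 + p.2.1) * FF y (p.1 + p.2.1) p.1 * GG y (p.1 + p.2.1) p.2.2) := by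
  obtain ⟨C, hC, hb⟩ := h3 y hy
  have hmem : (y:ℂ) ∈ Bd y := by
    unfold Bd
    exact Metric.mem_ball_self (by positivity)
  obtain ⟨hX, hAB⟩ := hb (y:ℂ) hmem
  refine Summable.of_norm_bounded (h4.2.1.mul_left (C * C * C)) ?_
  rintro ⟨a, b, c⟩
  have h1 : a + b - a = b := by abel
  have h2 : -(a + b) - c = k4 (a, b, c) := by simp only [k4]; abel
  simp only [cc, FF, GG, h1, h2]
  have hnn : 0 ≤ C * C * C * (pw (a + b) * (pw a + pw b) * (pw c + pw (k4 (a, b, c)))) := by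
    have := pw_nonneg (a + b)
    have := pw_nonneg a
    have := pw_nonneg b
    have := pw_nonneg c
    have := pw_nonneg (k4 (a, b, c))
    positivity
  by_cases h : InCl 0 (a + b) ∧ InCl 1 a ∧ InCl 5 b ∧ InCl 5 c ∧ InCl 1 (k4 (a, b, c)) ∧ a + b ≠ 0
  · obtain ⟨h0, ha, hb', hc, hd, hs⟩ := h
    simp only [h0, ha, hb', hc, hd, and_self, if_true]
    have ha0 := bcl ha (by norm_num)
    have hb0 := bcl hb' (by norm_num)
    have hc0 := bcl hc (by norm_num)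
    have hd0 := bcl hd (by norm_num)
    have e1 : ‖PowerSeries.coeff 2 (XX (y:ℂ) (a, 1) (b, -1))‖ ≤
        C * rk (a + b) ^ (-1 : ℝ) * (pw a + pw b) :=
      (hX (a, 1) (b, -1) (by norm_num) (by norm_num) ha0 hb0 hs).2.2
    have hcd : c + k4 (a, b, c) = -(a + b) := by simp only [k4]; abel
    have e2 : ‖PowerSeries.coeff 0 (XX (y:ℂ) (c, 0) (k4 (a, b, c), 0))‖ ≤
        C * rk (c + k4 (a, b, c)) ^ (1 / 2 : ℝ) * (pw c + pw (k4 (a, b, c))) :=
      (hX (c, 0) (k4 (a, b, c), 0) (by norm_num) (by norm_num) hc0 hd0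
        (by show c + k4 (a, b, c) ≠ 0; rw [hcd]; exact neg_ne_zero.2 hs)).1
    have hrk : rk (c + k4 (a, b, c)) = rk (a + b) := by
      rw [hcd]
      simp only [rk, Prod.fst_neg, Prod.snd_neg, Int.cast_neg, neg_sq]
    rw [hrk] at e2
    have e3 : ‖1 / (Nn y (a + b) : ℂ)‖ ≤ C * rk (a + b) ^ (-2 : ℝ) := by
      have := hAB (a + b, 0) (by norm_num) hs 0 (by norm_num)
      rw [As0, Bs0, ← map_mul, AB0, PowerSeries.coeff_zero_C] at this
      simpa using this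
    have hr := rk_pos hs
    have hrr : rk (a + b) ^ (-2 : ℝ) * rk (a + b) ^ (-1 : ℝ) * rk (a + b) ^ (1 / 2 : ℝ) =
        pw (a + b) := by
      rw [← Real.rpow_add hr, ← Real.rpow_add hr]
      unfold pw
      norm_num
    calc ‖1 / (Nn y (a + b) : ℂ) * PowerSeries.coeff 2 (XX (y:ℂ) (a, 1) (b, -1)) *
          PowerSeries.coeff 0 (XX (y:ℂ) (c, 0) (k4 (a, b, c), 0))‖
        = ‖1 / (Nn y (a + b) : ℂ)‖ * ‖PowerSeries.coeff 2 (XX (y:ℂ) (a, 1) (b, -1))‖ *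
          ‖PowerSeries.coeff 0 (XX (y:ℂ) (c, 0) (k4 (a, b, c), 0))‖ := by
          rw [norm_mul, norm_mul]
      _ ≤ (C * rk (a + b) ^ (-2 : ℝ)) * (C * rk (a + b) ^ (-1 : ℝ) * (pw a + pw b)) *
          (C * rk (a + b) ^ (1 / 2 : ℝ) * (pw c + pw (k4 (a, b, c)))) := by
          have := pw_nonneg a
          have := pw_nonneg b
          gcongr
      _ = C * C * C * ((rk (a + b) ^ (-2 : ℝ) * rk (a + b) ^ (-1 : ℝ) *
          rk (a + b) ^ (1 / 2 : ℝ)) * (pw a + pw b) * (pw c + pw (k4 (a, b, c)))) := by ring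
      _ = C * C * C * (pw (a + b) * (pw a + pw b) * (pw c + pw (k4 (a, b, c)))) := by rw [hrr]
  · have hz : (if InCl 0 (a + b) then 1 / (Nn y (a + b) : ℂ) else 0) *
        (if InCl 1 a ∧ InCl 5 b then PowerSeries.coeff 2 (XX (y:ℂ) (a, 1) (b, -1)) else 0) *
        (if InCl 5 c ∧ InCl 1 (k4 (a, b, c)) then
          PowerSeries.coeff 0 (XX (y:ℂ) (c, 0) (k4 (a, b, c), 0)) else 0) = 0 := by
      by_cases h0 : InCl 0 (a + b)
      · by_cases h5 : InCl 1 a ∧ InCl 5 b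
        · by_cases h6 : InCl 5 c ∧ InCl 1 (k4 (a, b, c))
          · have hs : a + b = 0 := by
              by_contra hs
              exact h ⟨h0, h5.1, h5.2, h6.1, h6.2, hs⟩
            have : (Nn y (a + b) : ℂ) = 0 := by
              rw [hs]
              simp [Nn]
            rw [this]
            simp
          · rw [if_neg h6, mul_zero]
        · rw [if_neg h5, mul_zero, zero_mul]
      · rw [if_neg h0, zero_mul, zero_mul]
    rw [hz, norm_zero]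
    exact hnn

theorem sB (h7 : G_RY) (y : ℝ) (hy : 0 < y) (s : ℤ × ℤ) :
    cc y s * (∑' k, FF y s k) * (∑' k, GG y s k) = eB y s := by
  unfold cc eB
  by_cases h0 : InCl 0 s
  · rw [if_pos h0, if_pos h0]
    by_cases hs : s = 0
    · subst hs
      have : (Nn y 0 : ℂ) = 0 := by simp [Nn]
      rw [this]
      simp
    · have e1 : (∑' k, FF y s k) = Ev 2 (y:ℂ) s := rfl
      have e2 : (∑' k, GG y s k) = Ev 0 (y:ℂ) s := by
        have h := (h7 y hy (-s) (neg_ne_zero.2 hs)).2.2.2.2.2.2.2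
        rw [neg_neg] at h
        rw [← h]
        rfl
      rw [e1, e2]
      ring
  · rw [if_neg h0, if_neg h0]
    simp

theorem thm (_h1 : EC237.A1) (_h2 : EC237.B1) (h3 : EC237.B2) (h4 : EC237.B4)
    (h5 : EC237.ZE.G_R0) (_h6 : EC237.ZE.G_RS) (h7 : EC237.ZE.G_RY) : EC237.ZE.G_RB := by
  intro y hy
  have hs := summ h3 h4 y hy
  obtain ⟨hs1, hs2⟩ := h5 (cc y) (FF y) (GG y) hs
  have e : (fun s : ℤ × ℤ => cc y s * (∑' k, FF y s k) * (∑' k, GG y s k)) = eB y :=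
    funext (sB h7 y hy)
  have et : famB (cQ (y:ℂ)) = fun p : Tri => -(2 / 3 * (y:ℂ) ^ 3) *
      (cc y (p.1 + p.2.1) * FF y (p.1 + p.2.1) p.1 * GG y (p.1 + p.2.1) p.2.2) :=
    funext (term y)
  refine ⟨?_, ?_, ?_⟩
  · rw [et]
    exact hs.mul_left _
  · rw [← e]
    exact hs1
  · rw [et, tsum_mul_left, hs2, e]

end EC237.ZE.PkRB
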